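import Pool.Agent.Helper85.PCP.Stmts

namespace PCP4

open Turing

theorem st_AM (h1 : ST_UTM) (h2 : ST_AMTM) : ST_AM := by
  obtain ⟨Γ, Λ, iΓ, iΛ, M, S, k, enc, inp, hS, hk, hinj, hlt, hd, hc, hu⟩ := h1
  obtain ⟨Q0, q0, qh, tab, hA, hiff⟩ := h2 Γ Λ M S k enc hS hk hinj hlt hd
  refine ⟨k, Q0, q0, qh, tab, hA, fun hcp => hu ?_⟩
  have h3 : ComputablePred (fun n => AHalt k Q0 q0 qh tab (q0, codeL k ((inp n).map enc), 0)) := by
    obtain ⟨hdec, hcomp⟩ := hcp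
    exact ⟨fun n => hdec _, hcomp.comp hc⟩
  exact h3.of_eq (fun n => hiff (inp n))

end PCP4
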