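import Pool.Agent.Helper85.PCP.Stmts

namespace PCP4

theorem st_B (h1 : ST_IP) (h2 : ST_IN) (h3 : ST_IC) : ST_B := by
  intro m s tr hG
  constructor
  · rintro ⟨K, T, hK, hl, hT⟩
    exact h2 m s tr hG K T ⟨hK, hl, hT⟩ (h3 m s tr hG K T ⟨hK, hl, hT⟩)
  · exact h1 m s tr hG

end PCP4
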