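import Pool.Agent.Helper85.PCP.Stmts

namespace PCP4

theorem c_mem_letters (A : ℕ) (W : List (Option ℕ)) (hW : W ≠ []) : true ∈ letters A W := by
  cases W with
  | nil => exact absurd rfl hW
  | cons t W =>
    simp only [letters, List.flatMap_cons, List.mem_append]
    left
    cases t with
    | none => simp [lt1]
    | some τ => simp [lt1]

theorem c_allfalse_step (m : ℕ) (tr : ℕ → List Bool) (st : ℕ × List Bool)
    (h : ∀ x ∈ st.2, x = false) : ∀ x ∈ (istep m tr st).2, x = false := by
  obtain ⟨φ, Q⟩ := st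
  cases Q with
  | nil => simp [istep]
  | cons y Q =>
    have hy : y = false := h y (by simp)
    subst hy
    intro x hx
    simp only [istep] at hx
    split at hx
    · rw [List.mem_append] at hx
      rcases hx with hx | hx
      · exact h x (by simp [hx])
      · simpa using hx
    · exact h x (by simp [hx])

theorem c_allfalse (m : ℕ) (tr : ℕ → List Bool) (st : ℕ × List Bool)
    (h : ∀ x ∈ st.2, x = false) (n : ℕ) : ∀ x ∈ ((istep m tr)^[n] st).2, x = false := by
  induction n with
  | zero => exact h
  | succ n ih =>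
    rw [Function.iterate_succ_apply']
    exact c_allfalse_step m tr _ ih

theorem st_C (h1 : ST_VSIM) (h2 : ST_HLT) (h3 : ST_INI) (h4 : ST_WINI) : ST_C := by
  intro V s A P D' a b hV
  have hV1 := hV.hV
  obtain ⟨-, hred, htok, -, -⟩ := h4 V s A P D' a b hV
  have hini := h3 V s A P D' a b hV
  have key : ∀ j, (∀ i < j, ¬ VHalt P ((vstep V P)^[i] (0, D' ++ [a, b]))) →
      ∃ n, j ≤ n ∧ ∃ κ < V, ∃ W : List (Option ℕ), W ≠ [] ∧ TokOk A W ∧
        (istep (V * nu A) (trk V s A P D' a b))^[n] (0, (trk V s A P D' a b 0).tail) =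
          (2 * A + κ * nu A, letters A W) ∧
        (κ, W.reduceOption) = (vstep V P)^[j] (0, D' ++ [a, b]) := by
    intro j
    induction j with
    | zero =>
      intro _
      refine ⟨V * nu A - 2 * A, Nat.zero_le _, 0, by omega, Winit V s A D' a b, ?_, htok, ?_, ?_⟩
      · intro h
        rw [h] at hred
        simp at hred
      · rw [hini]; simp
      · rw [hred]; rfl
    | succ j ih =>
      intro hj
      obtain ⟨n, hn, κ, hκ, W, hW, hT, he, hr⟩ := ih (fun i hi => hj i (by omega))
      have hnv := hj j (by omega)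
      rw [← hr] at hnv
      obtain ⟨n', hn', κ', hκ', W', hW', hT', he', hr'⟩ :=
        h1 V s A P D' a b hV κ hκ W hW hT hnv
      refine ⟨n' + n, by omega, κ', hκ', W', hW', hT', ?_, ?_⟩
      · rw [Function.iterate_add_apply, he, he']
      · rw [hr', Function.iterate_succ_apply', ← hr]
  constructor
  · rintro ⟨N, hC, hN⟩
    obtain ⟨n, hn, κ, hκ, W, hW, hT, he, hr⟩ := key N hN
    rw [← hr] at hC
    have hκ0 : κ = 0 := by
      obtain ⟨τ, D, h, -⟩ := hC
      exact congrArg Prod.fst h
    subst hκ0
    obtain ⟨n', hn'⟩ := h2 V s A P D' a b hV W hT hC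
    refine ⟨n' + n, ?_⟩
    rw [Function.iterate_add_apply, he]
    simpa using hn'
  · intro hN hI
    obtain ⟨n0, hn0⟩ := hI
    obtain ⟨n, hn, κ, hκ, W, hW, hT, he, hr⟩ := key n0 (fun i _ => hN i)
    have h5 := c_allfalse (V * nu A) (trk V s A P D' a b) _ hn0 (n - n0)
    rw [← Function.iterate_add_apply, show n - n0 + n0 = n by omega, he] at h5
    have := h5 true (c_mem_letters A W hW)
    simp at this

end PCP4
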