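import Pool.Agent.Helper85.PCP.Stmts

namespace PCP4

theorem st_D (h1 : ST_DSTEP) (h2 : ST_DHALT) (h3 : ST_DPRE) : ST_D := by
  intro k Q0 q0 qh tab hA n
  have hk := hA.hk
  set δ := dlt k Q0 q0 tab with hδ
  set P := prod k Q0 q0 qh tab with hP
  set V := (k + 1) * k with hVd
  set c0 : ℕ × ℕ × ℕ := (Q0 + 2 * n, 0, 0) with hc0
  obtain ⟨hp1, hp2⟩ := h3 k Q0 q0 qh tab hA n
  have hkey : ∀ j, (∀ i < j, ((astep k δ)^[i] c0).1 ≠ qh) →
      ∃ N, j ≤ N ∧ (vstep V P)^[N] (0, conf k c0) = (0, conf k ((astep k δ)^[j] c0)) ∧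
        ∀ i < N, ¬ VHalt P ((vstep V P)^[i] (0, conf k c0)) := by
    intro j
    induction j with
    | zero => exact fun _ => ⟨0, le_rfl, rfl, fun i hi => by omega⟩
    | succ j ih =>
      intro hj
      obtain ⟨N, hN, he, hv⟩ := ih (fun i hi => hj i (by omega))
      obtain ⟨N', hN', he', hv'⟩ := h1 k Q0 q0 qh tab hk ((astep k δ)^[j] c0) (hj j (by omega))
      refine ⟨N' + N, by omega, ?_, ?_⟩
      · rw [Function.iterate_add_apply, he, he', Function.iterate_succ_apply']
      · intro i hi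
        rcases Nat.lt_or_ge i N with h | h
        · exact hv i h
        · obtain ⟨e, rfl⟩ : ∃ e, i = e + N := ⟨i - N, by omega⟩
          rw [Function.iterate_add_apply, he]
          exact hv' e (by omega)
  -- runs of the machine from `c0`
  have hshift : ∀ t, (astep k δ)^[t] (q0, n, 0) = (astep k δ)^[t + (2 * n + 1)] c0 := by
    intro t
    rw [Function.iterate_add_apply, hp1]
  constructor
  · rintro ⟨t, ht⟩
    rw [hshift] at ht
    classical
    have hex : ∃ j, ((astep k δ)^[j] c0).1 = qh := ⟨_, ht⟩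
    obtain ⟨N, -, he, hv⟩ := hkey (Nat.find hex) (fun i hi => Nat.find_min hex hi)
    refine ⟨N, ?_, hv⟩
    rw [he]
    exact h2 k Q0 q0 qh tab hk _ (Nat.find_spec hex)
  · intro hno N
    have hall : ∀ j, ((astep k δ)^[j] c0).1 ≠ qh := by
      intro j
      rcases Nat.lt_or_ge j (2 * n + 1) with h | h
      · exact hp2 j h
      · intro hj
        apply hno
        refine ⟨j - (2 * n + 1), ?_⟩
        rw [hshift, show j - (2 * n + 1) + (2 * n + 1) = j by omega]
        exact hj
    obtain ⟨N', hN', -, hv⟩ := hkey (N + 1) (fun i _ => hall i)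
    exact hv N (by omega)

end PCP4
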