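import Pool.Agent.Helper85.PCP.Run

namespace PCP4

theorem st_IN : ST_IN := by
  intro m s tr hG K T hS h0
  obtain ⟨hK, hlen, hT⟩ := hS
  set L := 1 + (m - 1) * s with hL
  set U := mkU m L tr with hU
  have hm := hG.hm
  have hmpos : 0 < m := by omega
  have hTW : ic_W m U T K = T := hT.symm
  have hUlen : U.length = m * L := ic_mkU_length m L tr
  have hLpos : 0 < L := by omega
  have hUne : U ≠ [] := by
    intro h
    rw [h] at hUlen
    simp at hUlen
    omega
  by_contra hne
  have hne' : ∀ n, ∃ x ∈ ((istep m tr)^[n] (0, (tr 0).tail)).2, x = true := by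
    intro n
    by_contra h
    apply hne
    refine ⟨n, fun x hx => ?_⟩
    by_contra hx'
    exact h ⟨x, hx, by simpa using hx'⟩
  -- `T` extends the written words
  have hext : ∀ i ≤ K, ∃ R, T = ic_W m U T i ++ R := by
    intro i hi
    obtain ⟨R, hR⟩ := ic_W_add m U T i (K - i)
    rw [show i + (K - i) = K by omega, hTW] at hR
    exact ⟨R, hR⟩
  have key : ∀ n, ∃ (H : List Bool) (i : ℕ), H.length = n + 1 ∧
      i * m = (run_lt U H).length + ((istep m tr)^[n] (0, (tr 0).tail)).1 ∧
      ((istep m tr)^[n] (0, (tr 0).tail)).1 < m ∧ i ≤ K ∧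
      ic_W m U T i = run_lt U (H ++ ((istep m tr)^[n] (0, (tr 0).tail)).2) := by
    intro n
    induction n with
    | zero =>
      obtain ⟨R, hR⟩ := hext 1 (by omega)
      have hR' : T = U ++ R := by
        have h1 : ic_W m U T 1 = U := by
          rw [show (1 : ℕ) = 0 + 1 by rfl, ic_W_succ, zero_mul, h0]
          simp [ic_W, fW]
        rw [h1] at hR
        exact hR
      obtain ⟨h1, h2⟩ := run_init m L tr T R hmpos hLpos hG.len hG.t0 hR'
      refine ⟨[true], L, rfl, h2, hmpos, ?_, h1⟩
      have h3 : (run_lt U [true]).length ≤ T.length := by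
        rw [hR']
        simp [run_lt, fW]
      rw [hlen] at h3
      have h4 : L * m ≤ K * m := by
        rw [← hU] at h2
        omega
      exact Nat.le_of_mul_le_mul_right h4 hmpos
    | succ n ih =>
      obtain ⟨H, i, hH, hi, hφ, hiK, hW⟩ := ih
      obtain ⟨R, hR⟩ := hext i hiK
      obtain ⟨x0, hx0, -⟩ := hne' n
      rw [Function.iterate_succ_apply']
      generalize (istep m tr)^[n] (0, (tr 0).tail) = st at hi hφ hW hx0 ⊢
      obtain ⟨φ, Q⟩ := st
      cases Q with
      | nil => simp at hx0
      | cons x Q =>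
        simp only at hi hφ hW hx0
        rw [hW] at hR
        obtain ⟨i', hii, h1, h2, h3⟩ := run_step m L tr T H Q R x i φ hφ hG.len hi hR hW
        refine ⟨H ++ [x], i', by simp [hH], h1, h2, ?_, h3⟩
        have h4 : (run_lt U (H ++ [x])).length ≤ K * m := by
          rw [← hlen, hR]
          rw [show H ++ x :: Q = (H ++ [x]) ++ Q by simp, run_lt_append U (H ++ [x]) Q]
          simp only [List.length_append]
          omega
        have h5 : i' * m < (K + 1) * m := by
          rw [add_mul, one_mul]
          rw [← hU] at h1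
          omega
        have := Nat.lt_of_mul_lt_mul_right h5
        omega
  obtain ⟨H, i, hH, hi, hφ, hiK, hW⟩ := key (K * m)
  obtain ⟨R, hR⟩ := hext i hiK
  have h1 : H.length ≤ (run_lt U H).length := run_lt_len U hUne H
  have h2 : (run_lt U H).length ≤ T.length := by
    rw [hR, hW, run_lt_append]
    simp only [List.length_append]
    omega
  omega

end PCP4
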