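import Pool.Agent.Helper85.PCP.Run

namespace PCP4

/-- a queue of letters `c` runs down -/
theorem ip_down (m : ℕ) (tr : ℕ → List Bool) (hm : 2 ≤ m) :
    ∀ (N φ : ℕ) (Q : List Bool), (Q.length - φ) * m + φ ≤ N → φ ≤ Q.length → φ < m →
      (m - 1) ∣ (Q.length - φ) → (∀ x ∈ Q, x = false) →
      ∃ n, (istep m tr)^[n] (φ, Q) = (0, []) := by
  intro N
  induction N with
  | zero =>
    intro φ Q h1 h2 h3 h4 h5
    have hφ : φ = 0 := by omega
    subst hφ
    have : Q.length = 0 := by
      rcases Nat.eq_zero_or_pos Q.length with h | h
      · exact h
      · have : 0 < (Q.length - 0) * m := Nat.mul_pos (by omega) (by omega)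
        omega
    rw [List.length_eq_zero_iff.1 this]
    exact ⟨0, rfl⟩
  | succ N ih =>
    intro φ Q h1 h2 h3 h4 h5
    cases Q with
    | nil =>
      have : φ = 0 := by simpa using h2
      subst this
      exact ⟨0, rfl⟩
    | cons x Q =>
      have hx : x = false := h5 x (by simp)
      subst hx
      by_cases h0 : φ = 0
      · subst h0
        simp only [Nat.sub_zero, List.length_cons] at h1 h4
        have hge : m - 1 ≤ Q.length + 1 := Nat.le_of_dvd (by omega) h4
        obtain ⟨n, hn⟩ := ih (m - 1) (Q ++ [false]) (by
            simp only [List.length_append, List.length_cons, List.length_nil]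
            obtain ⟨d, hd⟩ : ∃ d, m = d + 2 := ⟨m - 2, by omega⟩
            subst hd
            obtain ⟨e, he⟩ : ∃ e, Q.length + 1 = (d + 1) + e := ⟨Q.length + 1 - (d + 1), by omega⟩
            have h6 : Q.length + (0 + 1) - (d + 2 - 1) = e := by omega
            rw [h6]
            have h7 : (Q.length + 1) * (d + 2) = (d + 1) * (d + 2) + e * (d + 2) := by
              rw [he, add_mul]
            have h8 : d + 2 ≤ (d + 1) * (d + 2) := Nat.le_mul_of_pos_left _ (by omega)
            rw [h7] at h1
            omega)
          (by simp; omega) (by omega)
          (by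
            simp only [List.length_append, List.length_cons, List.length_nil, zero_add]
            exact Nat.dvd_sub h4 dvd_rfl)
          (by
            intro y hy
            rw [List.mem_append] at hy
            rcases hy with hy | hy
            · exact h5 y (by simp [hy])
            · simpa using hy)
        exact ⟨n + 1, by rw [Function.iterate_succ_apply]; simpa [istep] using hn⟩
      · obtain ⟨n, hn⟩ := ih (φ - 1) Q (by
            simp only [List.length_cons] at h1 h2
            have : Q.length - (φ - 1) = Q.length + 1 - φ := by omega
            rw [this]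
            omega) (by simp only [List.length_cons] at h2; omega) (by omega)
          (by
            simp only [List.length_cons] at h4 h2
            have : Q.length - (φ - 1) = Q.length + 1 - φ := by omega
            rw [this]; exact h4)
          (fun y hy => h5 y (by simp [hy]))
        exact ⟨n + 1, by rw [Function.iterate_succ_apply]; simpa [istep, h0] using hn⟩

/-- lengths of letters are congruent to the number of items -/
theorem ip_mod (m s : ℕ) (U : List Bool) (hm : 2 ≤ m) (hU : U.length = m * (1 + (m - 1) * s))
    (Q : List Bool) : (run_lt U Q).length ≡ Q.length [MOD (m - 1)] := by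
  induction Q with
  | nil => rfl
  | cons x Q ih =>
    rw [run_lt_cons, List.length_append, List.length_cons, add_comm Q.length 1]
    refine Nat.ModEq.add ?_ ih
    cases x
    · rfl
    · simp only [fW, if_true, hU]
      obtain ⟨d, hd⟩ : ∃ d, m = d + 1 := ⟨m - 1, by omega⟩
      subst hd
      rw [Nat.add_sub_cancel]
      have : (d + 1) * (1 + d * s) = 1 + d * (1 + s + d * s) := by ring
      rw [this]
      exact ((Nat.modEq_iff_dvd' (by omega)).2 ⟨1 + s + d * s, by simp⟩).symm

theorem st_IP : ST_IP := by
  intro m s tr hG hI
  set L := 1 + (m - 1) * s with hL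
  set U := mkU m L tr with hU
  have hm := hG.hm
  have hs := hG.hs
  have hmpos : 0 < m := by omega
  have hUlen : U.length = m * L := ic_mkU_length m L tr
  have hLpos : 0 < L := by omega
  have hLm : m ≤ L := by
    have : (m - 1) * 1 ≤ (m - 1) * s := Nat.mul_le_mul_left _ hs
    omega
  have hUne : U ≠ [] := by
    intro h
    rw [h] at hUlen
    simp at hUlen
    omega
  have key : ∀ n, ∃ (H : List Bool) (i : ℕ), 1 ≤ i ∧
      i * m = (run_lt U H).length + ((istep m tr)^[n] (0, (tr 0).tail)).1 ∧
      ((istep m tr)^[n] (0, (tr 0).tail)).1 < m ∧
      (∀ T R, T = run_lt U (H ++ ((istep m tr)^[n] (0, (tr 0).tail)).2) ++ R →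
        ic_W m U T i = run_lt U (H ++ ((istep m tr)^[n] (0, (tr 0).tail)).2)) ∧
      ((istep m tr)^[n] (0, (tr 0).tail)).1 ≤
        (run_lt U ((istep m tr)^[n] (0, (tr 0).tail)).2).length ∧
      (m - 1) ∣ (run_lt U ((istep m tr)^[n] (0, (tr 0).tail)).2).length -
        ((istep m tr)^[n] (0, (tr 0).tail)).1 := by
    intro n
    induction n with
    | zero =>
      refine ⟨[true], L, hLpos, ?_, hmpos, ?_, Nat.zero_le _, ?_⟩
      · exact (run_init m L tr U [] hmpos hLpos hG.len hG.t0 (by simp [hU])).2
      · intro T R hT
        have hT' : T = U ++ (run_lt U (tr 0).tail ++ R) := by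
          rw [hT]
          simp [run_lt, fW]
        exact (run_init m L tr T _ hmpos hLpos hG.len hG.t0 hT').1
      · show (m - 1) ∣ (run_lt U (tr 0).tail).length - 0
        rw [Nat.sub_zero]
        have h1 := ip_mod m s U hm hUlen (tr 0).tail
        have h2 : (tr 0).tail.length = (m - 1) * s := by
          rw [List.length_tail, hG.len 0 hmpos]
          omega
        rw [h2] at h1
        exact (Nat.modEq_zero_iff_dvd).1 (h1.trans
          ((Nat.modEq_zero_iff_dvd).2 (dvd_mul_right _ _)))
    | succ n ih =>
      obtain ⟨H, i, hi1, hi, hφ, hW, hle, hdvd⟩ := ih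
      rw [Function.iterate_succ_apply']
      generalize (istep m tr)^[n] (0, (tr 0).tail) = st at hi hφ hW hle hdvd ⊢
      obtain ⟨φ, Q⟩ := st
      cases Q with
      | nil =>
        exact ⟨H, i, hi1, hi, hφ, hW, hle, hdvd⟩
      | cons x Q =>
        simp only at hi hφ hW hle hdvd
        -- the pushed items
        obtain ⟨S, hS⟩ : ∃ S, (istep m tr (φ, x :: Q)).2 = Q ++ S := by
          cases x with
          | true => exact ⟨tr φ, rfl⟩
          | false =>
            by_cases h0 : φ = 0
            · exact ⟨[false], by simp [istep, h0]⟩
            · exact ⟨[], by simp [istep, h0]⟩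
        have hsplit : run_lt U (H ++ [x] ++ (istep m tr (φ, x :: Q)).2) =
            run_lt U (H ++ x :: Q) ++ run_lt U S := by
          rw [hS]
          simp [run_lt]
        have hW0 := hW (run_lt U (H ++ x :: Q)) [] (by simp)
        obtain ⟨i', hii, h1, h2, -⟩ := run_step m L tr (run_lt U (H ++ x :: Q)) H Q [] x i φ hφ
          hG.len hi (by simp [hU]) hW0
        refine ⟨H ++ [x], i', by omega, h1, h2, ?_, ?_⟩
        · intro T R hT
          have hT' : T = run_lt U (H ++ x :: Q) ++ (run_lt U S ++ R) := by
            rw [hT, hsplit, List.append_assoc]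
          obtain ⟨i'', hii', h1', h2', h3'⟩ := run_step m L tr T H Q (run_lt U S ++ R) x i φ hφ
            hG.len hi hT' (hW T _ hT')
          have : i' = i'' := by
            have h5 : i' * m = i'' * m := by rw [h1, h1']
            exact Nat.eq_of_mul_eq_mul_right hmpos h5
          rw [this]
          exact h3'
        · -- the difference
          cases x with
          | true =>
            simp only [istep]
            rw [run_lt_cons, List.length_append] at hle hdvd
            simp only [fW, if_true, hUlen] at hle hdvd
            rw [run_lt_append, List.length_append]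
            have h3 : L ≤ (run_lt U (tr φ)).length := by
              have := run_lt_len U hUne (tr φ)
              rw [hG.len φ hφ] at this
              exact this
            refine ⟨by omega, ?_⟩
            have h4 := ip_mod m s U hm hUlen (tr φ)
            rw [hG.len φ hφ, ← hL] at h4
            have h5 : L ≡ m * L [MOD (m - 1)] := by
              have := ip_mod m s U hm hUlen [true]
              simp only [run_lt, List.flatMap_singleton, fW, if_true, hUlen, List.length_singleton]
                at this
              have h6 : L ≡ 1 [MOD (m - 1)] := by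
                rw [hL]
                exact ((Nat.modEq_iff_dvd' (by omega)).2 ⟨s, by simp⟩).symm
              exact h6.trans this.symm
            have h7 := h4.trans h5
            have h8 : m * L + (run_lt U Q).length ≡ φ [MOD (m - 1)] :=
              ((Nat.modEq_iff_dvd' hle).2 hdvd).symm
            have h9 : (run_lt U Q).length + (run_lt U (tr φ)).length ≡
                (run_lt U Q).length + m * L [MOD (m - 1)] := Nat.ModEq.add_left _ h7
            have h10 : φ ≡ (run_lt U Q).length + (run_lt U (tr φ)).length [MOD (m - 1)] := by
              refine (h9.trans ?_).symm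
              rw [add_comm]
              exact h8
            exact (Nat.modEq_iff_dvd' (by omega)).1 h10
          | false =>
            rw [run_lt_cons, List.length_append] at hle hdvd
            have hf1 : (fW U false).length = 1 := rfl
            rw [hf1] at hle hdvd
            by_cases h0 : φ = 0
            · subst h0
              simp only [istep, if_true]
              rw [Nat.sub_zero] at hdvd
              have hge : m - 1 ≤ 1 + (run_lt U Q).length := Nat.le_of_dvd (by omega) hdvd
              rw [run_lt_append, List.length_append]
              have hf2 : (run_lt U [false]).length = 1 := rfl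
              rw [hf2, add_comm _ 1]
              exact ⟨hge, Nat.dvd_sub hdvd dvd_rfl⟩
            · simp only [istep, if_neg h0]
              refine ⟨by omega, ?_⟩
              have : (run_lt U Q).length - (φ - 1) = 1 + (run_lt U Q).length - φ := by omega
              rw [this]
              exact hdvd
  obtain ⟨n, hn⟩ := hI
  obtain ⟨H, i, hi1, hi, hφ, hW, hle, hdvd⟩ := key n
  have hlt : (run_lt U ((istep m tr)^[n] (0, (tr 0).tail)).2).length =
      ((istep m tr)^[n] (0, (tr 0).tail)).2.length := by
    generalize ((istep m tr)^[n] (0, (tr 0).tail)).2 = Q at hn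
    induction Q with
    | nil => rfl
    | cons x Q ih =>
      have hx : x = false := hn x (by simp)
      subst hx
      rw [run_lt_cons, List.length_append, ih (fun y hy => hn y (by simp [hy]))]
      simp [fW]
      omega
  rw [hlt] at hle hdvd
  obtain ⟨n', hn'⟩ := ip_down m tr hm _ _ _ le_rfl hle hφ hdvd hn
  have hn'' : (istep m tr)^[n' + n] (0, (tr 0).tail) = (0, []) := by
    rw [Function.iterate_add_apply]
    exact hn'
  obtain ⟨H, i, hi1, hi, hφ, hW, hle, hdvd⟩ := key (n' + n)
  rw [hn''] at hi hW
  simp only [List.append_nil, add_zero] at hi hW
  refine ⟨i, run_lt U H, by omega, hi.symm, ?_⟩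
  exact (hW (run_lt U H) [] (by simp)).symm

end PCP4
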