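import Pool.Agent.Helper85.PCP.FIN
import Pool.Agent.Helper85.PCP.IN
import Pool.Agent.Helper85.PCP.IP
import Pool.Agent.Helper85.PCP.B
import Pool.Agent.Helper85.PCP.AM
import Pool.Agent.Helper85.PCP.C
import Pool.Agent.Helper85.PCP.D
import Pool.Agent.Helper16.PCP.LIFT
import Pool.Agent.Helper18.PCP.PF
import Pool.Agent.Helper18.PCP.UTM
import Pool.Agent.Helper19.PCP.WINS
import Pool.Agent.Helper19.PCP.WACT
import Pool.Agent.Helper22.PCP.COMP
import Pool.Agent.Helper22.PCP.DDW
import Pool.Agent.Helper22.PCP.DHALT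
import Pool.Agent.Helper22.PCP.DPRE
import Pool.Agent.Helper26.PCP.AMTM
import Pool.Agent.Helper34.PCP.GP1
import Pool.Agent.Helper44.PCP.VSIM
import Pool.Agent.Helper48.PCP.CPR
import Pool.Agent.Helper48.PCP.CTR
import Pool.Agent.Helper48.PCP.CUN
import Pool.Agent.Helper53.PCP.TOK
import Pool.Agent.Helper53.PCP.TRN
import Pool.Agent.Helper56.PCP.DSTEP
import Pool.Agent.Helper57.PCP.GPB
import Pool.Agent.Helper75.PCP.ODD
import Pool.Agent.Helper76.PCP.GOOD
import Pool.Agent.Helper77.PCP.HLT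
import Pool.Agent.Helper90.PCP.DPR
import Pool.Agent.Helper90.PCP.PB
import Pool.Agent.Helper91.PCP.DOK
import Pool.Agent.Helper95.PCP.INI

/-!
# PCP(4) is undecidable: assembly
-/

namespace PCP4

theorem all_B : ST_B := st_B st_IP st_IN st_IC

theorem all_WACT : ST_WACT := st_WACT st_WINS
theorem all_WINI : ST_WINI := st_WINI st_WINS
theorem all_GOOD : ST_GOOD := st_GOOD all_WACT all_WINI
theorem all_TOK : ST_TOK := st_TOK all_WACT
theorem all_VSIM : ST_VSIM := st_VSIM all_TOK all_WACT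
theorem all_HLT : ST_HLT := st_HLT all_TOK st_ODD all_WACT
theorem all_C : ST_C := st_C all_VSIM all_HLT (st_INI all_WINI) all_WINI

theorem all_D : ST_D := st_D (st_DSTEP st_DPR) (st_DHALT st_DPR) st_DPRE
theorem all_DOK : ST_DOK := st_DOK st_DPR

theorem all_AM : ST_AM := st_AM (st_UTM st_TRN) st_AMTM

theorem all_COMP : ST_COMP := st_COMP (st_CUN (st_CTR st_CPR))

/-- The Post correspondence problem for four pairs of words is undecidable. -/
theorem pcp4_undecidable : ¬ ComputablePred (fun I : Inst 4 ℕ => Pos I) :=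
  fin_uncomp all_B all_C all_D all_GOOD all_DOK st_DDW st_PB st_PF all_AM all_COMP

theorem all_RES : ST_RES := fin_res pcp4_undecidable st_LIFT (st_GP1 st_GPB)

end PCP4
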