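import Mathlib

/-!
# The Post correspondence problem and the generalized Post correspondence problem
-/

namespace PCP4

/-- An instance of `PCP(n)` over the alphabet `α`: the pairs `(h(i), g(i))`, `i < n`. -/
abbrev Inst (n : ℕ) (α : Type) := Fin n → List α × List α

/-- The instance is positive: some nonempty word `w` has `h(w) = g(w)`. -/
def Pos {n : ℕ} {α : Type} (I : Inst n α) : Prop :=
  ∃ w : List (Fin n), w ≠ [] ∧ w.flatMap (fun i => (I i).1) = w.flatMap (fun i => (I i).2)

/-- An instance of `GPCP(n)` over the alphabet `α`: the pairs `(h(i), g(i))`, then `(p₁, p₂)`,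
then `(s₁, s₂)`. -/
abbrev GInst (n : ℕ) (α : Type) := Inst n α × (List α × List α) × (List α × List α)

/-- The instance is positive: some word `w` has `p₁ h(w) s₁ = p₂ g(w) s₂`. -/
def GPos {n : ℕ} {α : Type} (J : GInst n α) : Prop :=
  ∃ w : List (Fin n), J.2.1.1 ++ w.flatMap (fun i => (J.1 i).1) ++ J.2.2.1 =
    J.2.1.2 ++ w.flatMap (fun i => (J.1 i).2) ++ J.2.2.2

end PCP4
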