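import Pool.Agent.Helper85.PCP.Basic

/-!
# The Post correspondence problem with four pairs: definitions and module statements

Blueprint: `/team-store/h85_pcp4.md`.
-/

namespace PCP4

/-! ## The T-equation -/

/-- `f(true) = U`, `f(false) = [false]`. -/
def fW (U : List Bool) (x : Bool) : List Bool := if x then U else [false]

/-- Some nonempty `T` with `|T| = K m` equals `f(T_0) f(T_m) ⋯ f(T_{(K-1)m})`. -/
def TEq (m : ℕ) (U : List Bool) : Prop :=
  ∃ (K : ℕ) (T : List Bool), 0 < K ∧ T.length = K * m ∧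
    T = (List.range K).flatMap (fun i => fW U (T.getD (i * m) false))

/-- code of a letter: `true ↦ 2 0^β`, `false ↦ 1 0^β`. -/
def cd (β : ℕ) (x : Bool) : List ℕ := (if x then 2 else 1) :: List.replicate β 0

/-- the four pairs of `m`, `U` -/
def inst4 (m : ℕ) (U : List Bool) : Inst 4 ℕ :=
  ![((U.flatMap (cd (m - 1))).take ((U.length - 1) * m + 1), cd (m - 1) true),
    ([1], cd (m - 1) false), ([0], cd (m - 1) true), ([0], cd (m - 1) false)]

/-! ## The item machine -/

/-- One step of the item machine; `true` is the item `U`, `false` the item `c`. -/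
def istep (m : ℕ) (tr : ℕ → List Bool) : ℕ × List Bool → ℕ × List Bool
  | (φ, []) => (φ, [])
  | (φ, true :: Q) => (φ, Q ++ tr φ)
  | (φ, false :: Q) => if φ = 0 then (m - 1, Q ++ [false]) else (φ - 1, Q)

/-- The word with tracks `tr φ`, `φ < m`, all of length `L`. -/
def mkU (m L : ℕ) (tr : ℕ → List Bool) : List Bool :=
  (List.range (m * L)).map (fun i => (tr (i % m)).getD (i / m) false)

/-- Conditions on the tracks. -/
structure Good (m s : ℕ) (tr : ℕ → List Bool) : Prop where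
  hm : 2 ≤ m
  hs : 1 ≤ s
  len : ∀ φ < m, (tr φ).length = 1 + (m - 1) * s
  t0 : (tr 0).getD 0 false = true
  sp : ∀ φ < m, (φ ≠ 0 ∧ ∀ x ∈ tr φ, x = true) ∨
    (∀ q < 1 + (m - 1) * s, (φ ≠ 0 ∨ q ≠ 0) → (m - 1) ∣ φ + q → (tr φ).getD q false = false)

/-- the item machine reaches a queue without `U` -/
def IHalt (m : ℕ) (tr : ℕ → List Bool) (st : ℕ × List Bool) : Prop :=
  ∃ n, ∀ x ∈ ((istep m tr)^[n] st).2, x = false

/-! ## V-tag systems (queue semantics) -/

/-- one pop: the state is (number of symbols to skip before the next active one, queue);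
an active symbol `τ` appends `P τ` (nothing if `P τ = none`, see `VHalt`). -/
def vstep (V : ℕ) (P : ℕ → Option (List ℕ)) : ℕ × List ℕ → ℕ × List ℕ
  | (κ, []) => (κ, [])
  | (0, τ :: D) => (V - 1, D ++ (P τ).getD [])
  | (κ + 1, _ :: D) => (κ, D)

/-- the next active symbol is at the front and has no production -/
def VHalt (P : ℕ → Option (List ℕ)) (st : ℕ × List ℕ) : Prop :=
  ∃ τ D, st = (0, τ :: D) ∧ P τ = none

/-- as `VHalt`, and all other symbols of the queue have a production -/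
def CHalt (P : ℕ → Option (List ℕ)) (st : ℕ × List ℕ) : Prop :=
  ∃ τ D, st = (0, τ :: D) ∧ P τ = none ∧ ∀ x ∈ D, P x ≠ none

/-! ## The tracks of a V-tag system with alphabet `0, …, A-1` -/

def nu (A : ℕ) : ℕ := 4 * A + 2
def xx (A τ : ℕ) : ℕ := 2 * A + 2 * (τ + 1)

/-- letters of a token; `none` is a dummy `U` -/
def lt1 (A : ℕ) : Option ℕ → List Bool
  | none => [true]
  | some τ => List.replicate (xx A τ) false ++ true :: List.replicate (nu A - xx A τ) false

def letters (A : ℕ) (W : List (Option ℕ)) : List Bool := W.flatMap (lt1 A)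

/-- window of `w` letters: the symbols `G` followed by dummies -/
def win (A w : ℕ) (G : List ℕ) : List (Option ℕ) :=
  G.map some ++ List.replicate (w - (nu A + 1) * G.length) none

/-- start of the `j`-th of `r` groups of a list of `n` symbols -/
def off (V r n j : ℕ) : ℕ := min (j * (V - 1)) (n - (r - j))

/-- `r` windows of `w` letters containing the symbols `p` -/
def wins (V A w r : ℕ) (p : List ℕ) : List (Option ℕ) :=
  (List.range r).flatMap (fun j =>
    win A w ((p.drop (off V r p.length j)).take (off V r p.length (j + 1) - off V r p.length j)))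

/-- tokens produced by an active symbol with production `p` -/
def Wact (V s A : ℕ) (p : List ℕ) : List (Option ℕ) :=
  wins V A (V * nu A - 1) s p ++ [none, none]

/-- initial tokens for the dataword `D' ++ [a, b]` -/
def Winit (V s A : ℕ) (D' : List ℕ) (a b : ℕ) : List (Option ℕ) :=
  wins V A (V * nu A - 1) (s - 2) D' ++
    (some a :: (List.replicate (V * nu A - 1 + 2 * A - 2 * (nu A + 1)) none ++ [some b]))

/-- the tracks -/
def trk (V s A : ℕ) (P : ℕ → Option (List ℕ)) (D' : List ℕ) (a b : ℕ) (φ : ℕ) : List Bool :=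
  if φ % 2 = 1 then List.replicate (1 + (V * nu A - 1) * s) false
  else if φ = 0 then
    true :: (List.replicate (V * nu A - 2 * A) false ++ (letters A (Winit V s A D' a b)).dropLast)
  else if V * nu A - φ ≤ 2 * A then
    match P ((V * nu A - φ) / 2 - 1) with
    | some p => (letters A (Wact V s A p)).tail
    | none => List.replicate (1 + (V * nu A - 1) * s) true
  else List.replicate (1 + (V * nu A - 1) * s) true

/-- Conditions on the V-tag system. -/
structure VOk (V s A : ℕ) (P : ℕ → Option (List ℕ)) (D' : List ℕ) (a b : ℕ) : Prop where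
  hA : 1 ≤ A
  hV : 3 ≤ V
  hVA : V ≤ A
  hs : 3 ≤ s
  hP : ∀ τ < A, ∀ p, P τ = some p → s ≤ p.length ∧ p.length ≤ s * (V - 1) ∧ ∀ x ∈ p, x < A
  hD : s - 2 ≤ D'.length ∧ D'.length ≤ (s - 2) * (V - 1) ∧ ∀ x ∈ D', x < A
  ha : a < A
  hb : b < A

/-! ## Alternating two-number machines -/

/-- transition table `(q, r) ↦ (q', keep, push, f)`: the list `tab` for `q < Q0`, and for
`q ≥ Q0` the states that load the input. -/
def dlt (k Q0 q0 : ℕ) (tab : List (ℕ × Bool × Bool × ℕ)) (q r : ℕ) : ℕ × Bool × Bool × ℕ :=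
  if q < Q0 then tab.getD (q * k + r) (0, true, false, 0)
  else (if q = Q0 then q0 else q - 1, true, false, (q - Q0) % 2)

/-- one step: `(q, M, N) ↦ (q', N or N / k, (M or k M) + f)` -/
def astep (k : ℕ) (δ : ℕ → ℕ → ℕ × Bool × Bool × ℕ) (c : ℕ × ℕ × ℕ) : ℕ × ℕ × ℕ :=
  ((δ c.1 (c.2.2 % k)).1,
    if (δ c.1 (c.2.2 % k)).2.1 then c.2.2 else c.2.2 / k,
    (if (δ c.1 (c.2.2 % k)).2.2.1 then k * c.2.1 else c.2.1) + (δ c.1 (c.2.2 % k)).2.2.2)

/-- validity of the finite table -/
structure AOk (k Q0 q0 qh : ℕ) (tab : List (ℕ × Bool × Bool × ℕ)) : Prop where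
  hk : 2 ≤ k
  hkQ : k ≤ Q0
  hq0 : q0 < Q0
  hqh : qh < Q0
  hd : ∀ q < Q0, ∀ r < k, (dlt k Q0 q0 tab q r).1 < Q0 ∧ (dlt k Q0 q0 tab q r).2.2.2 < k

/-- the machine reaches the state `qh` from `c` -/
def AHalt (k Q0 q0 qh : ℕ) (tab : List (ℕ × Bool × Bool × ℕ)) (c : ℕ × ℕ × ℕ) : Prop :=
  ∃ t, ((astep k (dlt k Q0 q0 tab))^[t] c).1 = qh

/-! ## The V-tag system of a two-number machine: `s = k + 1`, `V = s k`.
Symbols: `0` is `x`; `h q = 1 + c q`, `β q = 2 + c q`, `S q r = 3 + c q + r`,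
`A q r = 3 + k + c q + r`, `H q r = 3 + 2k + c q + r`, `B q r = 3 + 3k + c q + r`,
where `c = 2 + 4k`, `r < k`. -/

def sh (k q : ℕ) : ℕ := 1 + (2 + 4 * k) * q
def sb (k q : ℕ) : ℕ := 2 + (2 + 4 * k) * q
/-- type `ty = 0, 1, 2, 3` for `S, A, H, B` -/
def sT (k ty q r : ℕ) : ℕ := 3 + ty * k + (2 + 4 * k) * q + r

/-- block of length `V = (k+1) k`: `x^{s-1} T_{k-1} x^{s-1} T_{k-2} ⋯ x^{s-1} T_0` -/
def blk (k ty q : ℕ) : List ℕ :=
  (List.range k).flatMap (fun i => List.replicate k 0 ++ [sT k ty q (k - 1 - i)])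

/-- `n` copies of a word. -/
def cps (n : ℕ) (w : List ℕ) : List ℕ := (List.range n).flatMap (fun _ => w)

/-- the productions -/
def prod (k Q0 q0 qh : ℕ) (tab : List (ℕ × Bool × Bool × ℕ)) (τ : ℕ) : Option (List ℕ) :=
  if τ = 0 then some (List.replicate ((k + 1) * k) 0)
  else
    let q := (τ - 1) / (2 + 4 * k)
    let j := (τ - 1) % (2 + 4 * k)
    let r := (j - 2) % k
    let d := dlt k Q0 q0 tab q r
    if j = 0 then (if q = qh then none else some (blk k 2 q))
    else if j = 1 then some (blk k 3 q)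
    else if (j - 2) / k = 0 then
      some (List.replicate ((k + 1) * (k - r) - 1) 0 ++ sh k d.1 ::
        List.replicate ((k + 1) * d.2.2.2) (sb k d.1))
    else if (j - 2) / k = 1 then
      some (List.replicate ((k + 1) * (if d.2.2.1 then k else 1)) (sb k d.1))
    else if (j - 2) / k = 2 then
      some (blk k 0 d.1 ++ cps (if d.2.1 then r else 0) (blk k 1 d.1))
    else some (cps (if d.2.1 then k else 1) (blk k 1 d.1))

/-- the dataword of a configuration -/
def conf (k : ℕ) (c : ℕ × ℕ × ℕ) : List ℕ :=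
  sh k c.1 :: (List.replicate ((k + 1) * c.2.2) (sb k c.1) ++ (blk k 0 c.1 ++ cps c.2.1 (blk k 1 c.1)))

/-- number of symbols used from the start state `Q0 + 2 n` -/
def nA (k Q0 n : ℕ) : ℕ := 1 + (2 + 4 * k) * (Q0 + 2 * n + 1)

/-- initial dataword without its last two symbols, and these two -/
def D1 (k Q0 n : ℕ) : List ℕ := (conf k (Q0 + 2 * n, 0, 0)).take ((k + 1) * k - 1)

/-- the tracks of the instance with input `n` -/
def trN (k Q0 q0 qh : ℕ) (tab : List (ℕ × Bool × Bool × ℕ)) (n : ℕ) : ℕ → List Bool :=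
  trk ((k + 1) * k) (k + 1) (nA k Q0 n) (prod k Q0 q0 qh tab) (D1 k Q0 n) 0
    (sT k 0 (Q0 + 2 * n) 0)

def mN (k Q0 n : ℕ) : ℕ := (k + 1) * k * nu (nA k Q0 n)
def LN (k Q0 n : ℕ) : ℕ := 1 + (mN k Q0 n - 1) * (k + 1)
def UN (k Q0 q0 qh : ℕ) (tab : List (ℕ × Bool × Bool × ℕ)) (n : ℕ) : List Bool :=
  mkU (mN k Q0 n) (LN k Q0 n) (trN k Q0 q0 qh tab n)

end PCP4
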