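import Pool.Agent.Helper85.PCP.GDefs

namespace PCP4

theorem fin_uncomp (hB : ST_B) (hC : ST_C) (hD : ST_D) (hG : ST_GOOD) (hOK : ST_DOK)
    (hDW : ST_DDW) (hPB : ST_PB) (hPF : ST_PF) (hAM : ST_AM) (hCO : ST_COMP) :
    ¬ ComputablePred (fun I : Inst 4 ℕ => Pos I) := by
  obtain ⟨k, Q0, q0, qh, tab, hA, hu⟩ := hAM
  intro hcp
  apply hu
  have hk := hA.hk
  have h1 : ComputablePred (fun n => Pos (inst4 (mN k Q0 n) (UN k Q0 q0 qh tab n))) := by
    obtain ⟨hdec, hcomp⟩ := hcp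
    exact ⟨fun n => hdec _, hcomp.comp (hCO k Q0 q0 qh tab)⟩
  refine h1.of_eq (fun n => ?_)
  have hV := hOK k Q0 q0 qh tab hA n
  have hg := hG _ _ _ _ _ _ _ hV
  have hm := hg.hm
  have hUne : UN k Q0 q0 qh tab n ≠ [] := by
    intro h
    have h2 : (UN k Q0 q0 qh tab n).length = mN k Q0 n * LN k Q0 n := by simp [UN, mkU]
    have h3 : 0 < mN k Q0 n * LN k Q0 n := by
      apply Nat.mul_pos
      · simp only [mN]; omega
      · simp only [LN]; omega
    rw [h, List.length_nil] at h2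
    omega
  have hPos : Pos (inst4 (mN k Q0 n) (UN k Q0 q0 qh tab n)) ↔
      TEq (mN k Q0 n) (UN k Q0 q0 qh tab n) :=
    ⟨hPF _ _ hm hUne, hPB _ _ hm hUne⟩
  rw [hPos]
  have h4 : TEq (mN k Q0 n) (UN k Q0 q0 qh tab n) ↔
      IHalt (mN k Q0 n) (trN k Q0 q0 qh tab n) (0, (trN k Q0 q0 qh tab n 0).tail) :=
    hB _ _ _ hg
  rw [h4]
  obtain ⟨hc1, hc2⟩ := hC _ _ _ _ _ _ _ hV
  rw [hDW k Q0 n hk] at hc1 hc2
  obtain ⟨hd1, hd2⟩ := hD k Q0 q0 qh tab hA n
  constructor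
  · intro hI
    by_contra hno
    exact hc2 (hd2 hno) hI
  · intro hI
    exact hc1 (hd1 hI)

theorem fin_res (h0 : ¬ ComputablePred (fun I : Inst 4 ℕ => Pos I)) (hL : ST_LIFT)
    (hGP : ST_GP1) : ST_RES := by
  have h1 := hL h0
  refine ⟨fun n hn => (h1 n hn).1, fun n hn => (h1 n hn).2, ?_, ?_⟩
  · intro n hn hn2 hu
    rcases Nat.lt_or_ge n 3 with h | h
    · have : n = 1 := by omega
      subst this
      exact absurd hGP hu
    · exact (h1 (n + 1) (by omega)).1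
  · intro n hn hn2 hn3 hu
    rcases Nat.lt_or_ge n 4 with h | h
    · have : n = 1 := by omega
      subst this
      exact absurd hGP hu
    · exact (h1 n h).1

end PCP4
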