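import Pool.Agent.Helper85.PCP.Stmts

/-!
# The generalized Post correspondence problem
-/

namespace PCP4

/-- GPB: for one pair the exponent can be bounded -/
def ST_GPB : Prop := ∀ (u v p1 p2 s1 s2 : List ℕ) (k : ℕ),
  p1 ++ (List.replicate k u).flatten ++ s1 = p2 ++ (List.replicate k v).flatten ++ s2 →
  ∃ k', k' ≤ p1.length + p2.length + s1.length + s2.length ∧
    p1 ++ (List.replicate k' u).flatten ++ s1 = p2 ++ (List.replicate k' v).flatten ++ s2

/-- GP1: `GPCP(1)` is decidable -/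
def ST_GP1 : Prop := ComputablePred (fun J : GInst 1 ℕ => GPos J)

/-- RES: the final theorem -/
def ST_RES : Prop :=
  (∀ n, 4 ≤ n → ¬ ComputablePred (fun I : Inst n ℕ => Pos I)) ∧
  (∀ n, 4 ≤ n → ¬ ComputablePred (fun I : Inst n Bool => Pos I)) ∧
  (∀ n, 1 ≤ n → n ≠ 2 → ¬ ComputablePred (fun J : GInst n ℕ => GPos J) →
    ¬ ComputablePred (fun I : Inst (n + 1) ℕ => Pos I)) ∧
  (∀ n, 1 ≤ n → n ≠ 2 → n ≠ 3 → ¬ ComputablePred (fun J : GInst n ℕ => GPos J) →
    ¬ ComputablePred (fun I : Inst n ℕ => Pos I))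

end PCP4
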