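import Pool.Agent.Helper85.PCP.Stmts

namespace PCP4

/-- the first `i` blocks -/
def ic_W (m : ℕ) (U T : List Bool) (i : ℕ) : List Bool :=
  (List.range i).flatMap (fun j => fW U (T.getD (j * m) false))

theorem ic_W_succ (m : ℕ) (U T : List Bool) (i : ℕ) :
    ic_W m U T (i + 1) = ic_W m U T i ++ fW U (T.getD (i * m) false) := by
  simp [ic_W, List.range_succ, List.flatMap_append]

theorem ic_W_add (m : ℕ) (U T : List Bool) (i j : ℕ) :
    ∃ R, ic_W m U T (i + j) = ic_W m U T i ++ R := by
  induction j with
  | zero => exact ⟨[], by simp⟩
  | succ j ih =>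
    obtain ⟨R, hR⟩ := ih
    exact ⟨R ++ fW U (T.getD ((i + j) * m) false), by
      rw [← add_assoc, ic_W_succ, hR, List.append_assoc]⟩

theorem ic_mkU_length (m L : ℕ) (tr : ℕ → List Bool) : (mkU m L tr).length = m * L := by
  simp [mkU]

theorem ic_mkU_getD (m L : ℕ) (tr : ℕ → List Bool) (i : ℕ) (hi : i < m * L) :
    (mkU m L tr).getD i false = (tr (i % m)).getD (i / m) false := by
  have h : i < (mkU m L tr).length := by rw [ic_mkU_length]; exact hi
  rw [List.getD_eq_getElem _ _ h]
  simp [mkU]

/-- T at a position in block `i` -/
theorem ic_block {m : ℕ} {U T : List Bool} {K : ℕ} (hT : T = ic_W m U T K) {i o : ℕ} (hi : i < K)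
    (ho : o < (fW U (T.getD (i * m) false)).length) :
    T.getD ((ic_W m U T i).length + o) false = (fW U (T.getD (i * m) false)).getD o false := by
  obtain ⟨R, hR⟩ := ic_W_add m U T (i + 1) (K - (i + 1))
  rw [show i + 1 + (K - (i + 1)) = K by omega, ic_W_succ, ← hT] at hR
  have h2 : T.getD ((ic_W m U T i).length + o) false =
      (ic_W m U T i ++ fW U (T.getD (i * m) false) ++ R).getD ((ic_W m U T i).length + o) false :=
    congrArg (fun l => l.getD ((ic_W m U T i).length + o) false) hR
  rw [h2, List.append_assoc, List.getD_append_right _ _ _ _ (by omega), Nat.add_sub_cancel_left,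
    List.getD_append _ _ _ _ ho]

theorem st_IC : ST_IC := by
  intro m s tr hG K T hS
  obtain ⟨hK, hlen, hT⟩ := hS
  set L := 1 + (m - 1) * s with hL
  set U := mkU m L tr with hU
  have hm := hG.hm
  have hTW : T = ic_W m U T K := hT
  have hUlen : U.length = m * L := ic_mkU_length m L tr
  by_contra h0
  have h0' : T.getD 0 false = false := by simpa using h0
  -- lengths
  set N : ℕ → ℕ := fun i => (ic_W m U T i).length with hN
  have hN0 : N 0 = 0 := by simp [hN, ic_W]
  have hNs : ∀ i, N (i + 1) = N i + (if T.getD (i * m) false = true then m * L else 1) := by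
    intro i
    simp only [hN, ic_W_succ, List.length_append, fW]
    by_cases h : T.getD (i * m) false = true
    · rw [if_pos h, if_pos h, hUlen]
    · rw [if_neg h, if_neg h]; rfl
  have hNK : N K = K * m := by
    simp only [hN]; rw [← hTW]; exact hlen
  have hLpos : 1 ≤ L := by omega
  obtain ⟨d, hd⟩ : ∃ d, m = d + 1 := ⟨m - 1, by omega⟩
  have hd1 : m - 1 = d := by omega
  have hdpos : 1 ≤ d := by omega
  -- the offset `i m - N i` is divisible by `m - 1`
  have hmod : ∀ i, N i ≡ i [MOD d] := by
    intro i
    induction i with
    | zero => simp [hN0]; rfl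
    | succ i ih =>
      rw [hNs]
      have h1 : (if T.getD (i * m) false = true then m * L else 1) ≡ 1 [MOD d] := by
        split
        · rw [hL, hd1, hd]
          have : (d + 1) * (1 + d * s) = 1 + d * (1 + s + d * s) := by ring
          rw [this]
          exact (Nat.modEq_iff_dvd' (by omega)).2 ⟨1 + s + d * s, by simp⟩ |>.symm
        · rfl
      exact Nat.ModEq.add ih h1
  -- first catching up
  have hex : ∃ i, i < K ∧ N i < i * m ∧ (i + 1) * m ≤ N (i + 1) := by
    by_contra hne
    push Not at hne
    have : ∀ i, 1 ≤ i → i ≤ K → N i < i * m := by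
      intro i hi
      induction i, hi using Nat.le_induction with
      | base =>
        intro _
        rw [show (1 : ℕ) = 0 + 1 by rfl, hNs, hN0, zero_mul, h0', if_neg (by simp)]
        omega
      | succ i hi ih =>
        intro hiK
        exact hne i (by omega) (ih (by omega))
    have := this K (by omega) le_rfl
    omega
  obtain ⟨i, hiK, hi1, hi2⟩ := hex
  -- the read is a `b`
  have hb : T.getD (i * m) false = true := by
    by_contra hne
    have h1 := hNs i
    rw [if_neg hne] at h1
    have : (i + 1) * m = i * m + m := by ring
    omega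
  have hNi : N (i + 1) = N i + m * L := by rw [hNs, if_pos hb]
  set o := i * m - N i with ho
  have hexp : (i + 1) * m = i * m + m := by ring
  have ho1 : N i + o = i * m := by omega
  have ho2 : o + m ≤ m * L := by omega
  have hopos : 0 < o := by omega
  have hoL : o < m * L := by omega
  have hUo : U.getD o false = true := by
    have := ic_block (m := m) (U := U) hTW (i := i) (o := o) hiK (by
      rw [hb]; simp [fW, hUlen, hoL])
    rw [show (ic_W m U T i).length + o = i * m from ho1, hb] at this
    simpa [fW] using this.symm
  have htr : (tr (o % m)).getD (o / m) false = true := by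
    rw [← ic_mkU_getD m L tr o hoL]; exact hUo
  have hdvd : d ∣ o := by
    have h1 := hmod i
    have h2 : i * m ≡ i [MOD d] := by
      rw [hd]
      exact (Nat.modEq_iff_dvd' (by nlinarith)).2 ⟨i, by rw [Nat.mul_succ, Nat.add_sub_cancel]; ring⟩ |>.symm
    have h3 : N i ≡ i * m [MOD d] := h1.trans h2.symm
    exact (Nat.modEq_iff_dvd' hi1.le).1 h3
  have hphi : o % m < m := Nat.mod_lt _ (by omega)
  have hq : o / m < L := by
    rw [Nat.div_lt_iff_lt_mul (by omega)]; linarith [mul_comm m L]
  have hdiv : m * (o / m) + o % m = o := Nat.div_add_mod o m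
  have hnz : o % m ≠ 0 ∨ o / m ≠ 0 := by
    by_contra hne
    push Not at hne
    rw [hne.1, hne.2] at hdiv
    omega
  rcases hG.sp (o % m) hphi with ⟨hphi0, hall⟩ | hsp
  swap
  · have h1 := hsp (o / m) hq hnz (by
      rw [hd1]
      have : d ∣ d * (o / m) + (o % m + o / m) := by
        have : d * (o / m) + (o % m + o / m) = o := by
          have := hdiv
          rw [hd] at this ⊢
          linarith [this]
        rw [this]; exact hdvd
      exact (Nat.dvd_add_right (dvd_mul_right _ _)).1 this)
    rw [htr] at h1
    exact absurd h1 (by simp)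
  -- all later reads are `b`
  have hstrict : (i + 1) * m < N (i + 1) := by
    rcases Nat.lt_or_ge ((i + 1) * m) (N (i + 1)) with h | h
    · exact h
    · exfalso
      have : o + m = m * L := by omega
      have h2 : m ∣ o + m := ⟨L, this⟩
      have h3 : m ∣ o := (Nat.dvd_add_left (dvd_refl m)).1 h2
      exact hphi0 (Nat.mod_eq_zero_of_dvd h3)
  have htrall : ∀ q < L, (tr (o % m)).getD q false = true := by
    intro q hq'
    have hl : q < (tr (o % m)).length := by rw [hG.len _ hphi]; exact hq'
    rw [List.getD_eq_getElem _ _ hl]
    exact hall _ (List.getElem_mem hl)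
  have key : ∀ j, i + 1 + j ≤ K → (i + 1 + j) * m < N (i + 1 + j) ∧
      ic_W m U T (i + 1 + j) = ic_W m U T i ++ (List.replicate (j + 1) U).flatten := by
    intro j
    induction j with
    | zero =>
      intro _
      refine ⟨hstrict, ?_⟩
      rw [add_zero, ic_W_succ, hb]
      simp [fW]
    | succ j ih =>
      intro hj
      obtain ⟨h1, h2⟩ := ih (by omega)
      have hNj : N (i + 1 + j) = N i + (j + 1) * (m * L) := by
        simp only [hN]
        rw [h2]
        simp [hUlen]
      -- position (i+1+j) m
      have hpos : (i + 1 + j) * m = N i + (o + (j + 1) * m) := by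
        have : (i + 1 + j) * m = i * m + (j + 1) * m := by ring
        omega
      have hread : T.getD ((i + 1 + j) * m) false = true := by
        obtain ⟨R, hR⟩ := ic_W_add m U T (i + 1 + j) (K - (i + 1 + j))
        rw [show i + 1 + j + (K - (i + 1 + j)) = K by omega] at hR
        rw [← hTW] at hR
        rw [hR, List.getD_append _ _ _ _ h1, h2, hpos]
        rw [List.getD_append_right _ _ _ _ (by show N i ≤ _; omega)]
        show ((List.replicate (j + 1) U).flatten).getD (N i + (o + (j + 1) * m) - N i) false = true
        rw [Nat.add_sub_cancel_left]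
        set p := o + (j + 1) * m with hp
        have hpl : p < (j + 1) * (m * L) := by omega
        have hflat : ∀ (n p : ℕ), p < n * (m * L) →
            ((List.replicate n U).flatten).getD p false = U.getD (p % (m * L)) false := by
          intro n
          induction n with
          | zero => intro p hp; omega
          | succ n ihn =>
            intro p hp
            rw [List.replicate_succ, List.flatten_cons]
            rcases Nat.lt_or_ge p (m * L) with hlt | hge
            · rw [List.getD_append _ _ _ _ (by rw [hUlen]; exact hlt), Nat.mod_eq_of_lt hlt]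
            · rw [List.getD_append_right _ _ _ _ (by rw [hUlen]; exact hge), hUlen,
                ihn (p - m * L) (by
                  have : (n + 1) * (m * L) = n * (m * L) + m * L := by ring
                  omega)]
              rw [Nat.mod_eq_sub_mod hge]
        rw [hflat _ _ hpl]
        have hmL : 0 < m * L := by positivity
        have hlt : p % (m * L) < m * L := Nat.mod_lt _ hmL
        rw [hU, ic_mkU_getD m L tr _ hlt]
        have h3 : p % (m * L) % m = o % m := by
          rw [Nat.mod_mul_right_mod, hp, Nat.add_mul_mod_self_right]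
        rw [h3]
        apply htrall
        rw [Nat.div_lt_iff_lt_mul (by omega)]
        linarith [mul_comm m L]
      have hsucc := hNs (i + 1 + j)
      rw [if_pos hread] at hsucc
      constructor
      · rw [show i + 1 + (j + 1) = i + 1 + j + 1 by ring, hsucc]
        have : (i + 1 + j + 1) * m = (i + 1 + j) * m + m := by ring
        have : m ≤ m * L := Nat.le_mul_of_pos_right _ hLpos
        omega
      · rw [show i + 1 + (j + 1) = i + 1 + j + 1 by ring, ic_W_succ, hread, h2]
        simp only [fW, if_true]
        rw [List.append_assoc]
        congr 1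
        rw [List.replicate_succ' (n := j + 1), List.flatten_append]
        simp
  have hfin := (key (K - (i + 1)) (by omega)).1
  rw [show i + 1 + (K - (i + 1)) = K by omega] at hfin
  omega

end PCP4
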