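import Pool.Agent.Helper85.PCP.IC

namespace PCP4

/-- letters of a list of items -/
def run_lt (U : List Bool) (Q : List Bool) : List Bool := Q.flatMap (fW U)

theorem run_lt_append (U Q R : List Bool) : run_lt U (Q ++ R) = run_lt U Q ++ run_lt U R := by
  simp [run_lt]

theorem run_lt_cons (U Q : List Bool) (x : Bool) : run_lt U (x :: Q) = fW U x ++ run_lt U Q := by
  simp [run_lt]

theorem run_lt_len (U : List Bool) (hU : U ≠ []) (Q : List Bool) : Q.length ≤ (run_lt U Q).length := by
  induction Q with
  | nil => simp
  | cons x Q ih =>
    rw [run_lt_cons, List.length_append, List.length_cons]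
    have : 1 ≤ (fW U x).length := by
      cases x
      · simp [fW]
      · simp only [fW, if_true]
        exact List.length_pos_iff.2 hU
    omega

/-- reading through one track -/
theorem run_reads (m L : ℕ) (tr : ℕ → List Bool) (T A R : List Bool) (i φ : ℕ)
    (hφ : φ < m) (hlen : (tr φ).length = L)
    (hi : i * m = A.length + φ) (hT : T = A ++ (mkU m L tr ++ R)) :
    ∀ q ≤ L, ic_W m (mkU m L tr) T (i + q) =
      ic_W m (mkU m L tr) T i ++ run_lt (mkU m L tr) ((tr φ).take q) := by
  intro q
  induction q with
  | zero => intro _; simp [run_lt]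
  | succ q ih =>
    intro hq
    rw [← add_assoc, ic_W_succ, ih (by omega)]
    have hpos : (i + q) * m = A.length + (φ + q * m) := by rw [add_mul, hi]; ring
    have hlt : φ + q * m < m * L := by
      calc φ + q * m < m + q * m := by omega
        _ = (q + 1) * m := by ring
        _ ≤ L * m := Nat.mul_le_mul_right _ hq
        _ = m * L := mul_comm _ _
    have hread : T.getD ((i + q) * m) false = (tr φ).getD q false := by
      rw [hpos, hT, List.getD_append_right _ _ _ _ (by omega), Nat.add_sub_cancel_left,
        List.getD_append _ _ _ _ (by rw [ic_mkU_length]; exact hlt), ic_mkU_getD _ _ _ _ hlt]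
      have hm : 0 < m := by omega
      rw [Nat.add_mul_mod_self_right, Nat.mod_eq_of_lt hφ, Nat.add_mul_div_right _ _ hm,
        Nat.div_eq_of_lt hφ, zero_add]
    rw [hread]
    have hql : q < (tr φ).length := by omega
    rw [List.take_succ_eq_append_getElem hql, run_lt_append, List.append_assoc,
      List.getD_eq_getElem _ _ hql]
    simp [run_lt]

/-- one step of the item machine against a word `T` that extends the written word -/
theorem run_step (m L : ℕ) (tr : ℕ → List Bool) (T H Q R : List Bool) (x : Bool) (i φ : ℕ)
    (hφ : φ < m) (hlen : ∀ φ < m, (tr φ).length = L)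
    (hi : i * m = (run_lt (mkU m L tr) H).length + φ)
    (hT : T = run_lt (mkU m L tr) (H ++ x :: Q) ++ R)
    (hW : ic_W m (mkU m L tr) T i = run_lt (mkU m L tr) (H ++ x :: Q)) :
    ∃ i', i ≤ i' ∧ i' * m = (run_lt (mkU m L tr) (H ++ [x])).length + (istep m tr (φ, x :: Q)).1 ∧
      (istep m tr (φ, x :: Q)).1 < m ∧
      ic_W m (mkU m L tr) T i' = run_lt (mkU m L tr) (H ++ [x] ++ (istep m tr (φ, x :: Q)).2) := by
  set U := mkU m L tr with hU
  have hUl : U.length = m * L := ic_mkU_length m L tr
  cases x with
  | true =>
    refine ⟨i + L, by omega, ?_, hφ, ?_⟩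
    · rw [run_lt_append, List.length_append]
      simp only [istep, run_lt, List.flatMap_singleton, fW, if_true, hUl]
      rw [add_mul, hi, run_lt]
      ring_nf
    · have h := run_reads m L tr T (run_lt U H) (run_lt U Q ++ R) i φ hφ (hlen φ hφ) hi (by
        rw [hT, run_lt_append, run_lt_cons]
        simp [fW, hU]) L le_rfl
      rw [← hU] at h
      rw [h, hW, show (tr φ).take L = tr φ from by rw [← hlen φ hφ, List.take_length]]
      simp only [istep, run_lt_append, run_lt_cons]
      simp [run_lt]
  | false =>
    by_cases h0 : φ = 0
    · subst h0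
      refine ⟨i + 1, by omega, ?_, ?_, ?_⟩
      · rw [run_lt_append, List.length_append]
        simp only [istep, if_true, add_mul, hi]
        simp [run_lt, fW]
        omega
      · simp only [istep, if_true]; omega
      · rw [ic_W_succ, hW]
        have hread : T.getD (i * m) false = false := by
          rw [hi, hT, run_lt_append, run_lt_cons, add_zero, List.append_assoc,
            List.getD_append_right _ _ _ _ le_rfl, Nat.sub_self]
          simp [fW]
        rw [hread]
        simp only [istep, if_true, run_lt_append, run_lt_cons]
        simp [run_lt]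
    · refine ⟨i, le_rfl, ?_, ?_, ?_⟩
      · rw [run_lt_append, List.length_append, hi]
        simp only [istep, if_neg h0]
        simp [run_lt, fW]
        omega
      · simp only [istep, if_neg h0]; omega
      · rw [hW]
        simp only [istep, if_neg h0]
        congr 1
        simp

/-- the first block -/
theorem run_init (m L : ℕ) (tr : ℕ → List Bool) (T R : List Bool)
    (hm : 0 < m) (hL : 0 < L) (hlen : ∀ φ < m, (tr φ).length = L) (h0 : (tr 0).getD 0 false = true)
    (hT : T = mkU m L tr ++ R) :
    ic_W m (mkU m L tr) T L = run_lt (mkU m L tr) ([true] ++ (tr 0).tail) ∧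
      L * m = (run_lt (mkU m L tr) [true]).length + 0 := by
  have h := run_reads m L tr T [] R 0 0 hm (hlen 0 hm) (by simp) (by rw [hT]; simp) L le_rfl
  have htr : tr 0 = true :: (tr 0).tail := by
    have hl := hlen 0 hm
    cases htt : tr 0 with
    | nil => rw [htt] at hl; simp at hl; omega
    | cons a t =>
      rw [htt] at h0
      simp at h0
      simp [h0]
  constructor
  · rw [zero_add] at h
    rw [h, show (tr 0).take L = tr 0 from by rw [← hlen 0 hm, List.take_length]]
    conv_lhs => rw [htr]
    simp [ic_W]
  · simp [run_lt, fW, ic_mkU_length]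
    ring

end PCP4
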