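import Pool.Agent.Helper85.PCP.Defs

/-!
# PCP(4): statements of the modules (blueprint `/team-store/h85_pcp4.md`)
-/

namespace PCP4

open Turing

/-- `(K, T)` solves the T-equation -/
def Sol (m : ℕ) (U : List Bool) (K : ℕ) (T : List Bool) : Prop :=
  0 < K ∧ T.length = K * m ∧ T = (List.range K).flatMap (fun i => fW U (T.getD (i * m) false))

/-! ## (A) -/

/-- PB -/
def ST_PB : Prop := ∀ (m : ℕ) (U : List Bool), 2 ≤ m → U ≠ [] → TEq m U → Pos (inst4 m U)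
/-- PF -/
def ST_PF : Prop := ∀ (m : ℕ) (U : List Bool), 2 ≤ m → U ≠ [] → Pos (inst4 m U) → TEq m U

/-! ## (B) -/

/-- IP -/
def ST_IP : Prop := ∀ (m s : ℕ) (tr : ℕ → List Bool), Good m s tr →
  IHalt m tr (0, (tr 0).tail) → TEq m (mkU m (1 + (m - 1) * s) tr)
/-- IN -/
def ST_IN : Prop := ∀ (m s : ℕ) (tr : ℕ → List Bool), Good m s tr →
  ∀ (K : ℕ) (T : List Bool), Sol m (mkU m (1 + (m - 1) * s) tr) K T → T.getD 0 false = true →
    IHalt m tr (0, (tr 0).tail)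
/-- IC -/
def ST_IC : Prop := ∀ (m s : ℕ) (tr : ℕ → List Bool), Good m s tr →
  ∀ (K : ℕ) (T : List Bool), Sol m (mkU m (1 + (m - 1) * s) tr) K T → T.getD 0 false = true
/-- B -/
def ST_B : Prop := ∀ (m s : ℕ) (tr : ℕ → List Bool), Good m s tr →
  (TEq m (mkU m (1 + (m - 1) * s) tr) ↔ IHalt m tr (0, (tr 0).tail))

/-! ## (C) -/

/-- all symbols of a token list are `< A` -/
def TokOk (A : ℕ) (W : List (Option ℕ)) : Prop := ∀ τ, some τ ∈ W → τ < A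

/-- WINS: `r` windows, each with at least one and at most `V - 1` symbols -/
def ST_WINS : Prop := ∀ (V A r : ℕ) (p : List ℕ), 1 ≤ A → 3 ≤ V → V ≤ A → r ≤ p.length →
  p.length ≤ r * (V - 1) → (∀ x ∈ p, x < A) →
    (letters A (wins V A (V * nu A - 1) r p)).length = r * (V * nu A - 1) ∧
    (wins V A (V * nu A - 1) r p).reduceOption = p ∧
    (∀ j < r, ∀ i < 2 * A + 2,
      (letters A (wins V A (V * nu A - 1) r p)).getD (j * (V * nu A - 1) + i) true = false)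

/-- WACT -/
def ST_WACT : Prop := ∀ (V s A : ℕ) (P : ℕ → Option (List ℕ)) (D' : List ℕ) (a b : ℕ),
  VOk V s A P D' a b → ∀ τ < A, ∀ p, P τ = some p →
    (letters A (Wact V s A p)).length = 2 + (V * nu A - 1) * s ∧
    (Wact V s A p).reduceOption = p ∧ TokOk A (Wact V s A p) ∧
    (letters A (Wact V s A p)) = false :: (letters A (Wact V s A p)).tail ∧
    (∀ j < s, ∀ i < 2 * A + 2,
      (letters A (Wact V s A p)).getD (j * (V * nu A - 1) + i) true = false)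

/-- WINI -/
def ST_WINI : Prop := ∀ (V s A : ℕ) (P : ℕ → Option (List ℕ)) (D' : List ℕ) (a b : ℕ),
  VOk V s A P D' a b →
    (letters A (Winit V s A D' a b)).length = (V * nu A - 1) * (s - 1) + 2 * A ∧
    (Winit V s A D' a b).reduceOption = D' ++ [a, b] ∧ TokOk A (Winit V s A D' a b) ∧
    (letters A (Winit V s A D' a b)) = (letters A (Winit V s A D' a b)).dropLast ++ [false] ∧
    (∀ j < s, (letters A (Winit V s A D' a b)).getD (j * (V * nu A - 1) + 2 * A - 2) true = false)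

/-- GOOD -/
def ST_GOOD : Prop := ∀ (V s A : ℕ) (P : ℕ → Option (List ℕ)) (D' : List ℕ) (a b : ℕ),
  VOk V s A P D' a b → Good (V * nu A) s (trk V s A P D' a b)

/-- INI -/
def ST_INI : Prop := ∀ (V s A : ℕ) (P : ℕ → Option (List ℕ)) (D' : List ℕ) (a b : ℕ),
  VOk V s A P D' a b →
    (istep (V * nu A) (trk V s A P D' a b))^[V * nu A - 2 * A] (0, (trk V s A P D' a b 0).tail) =
      (2 * A, letters A (Winit V s A D' a b))

/-- TOK: the item machine on one token, with an arbitrary rest `Q` of the queue -/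
def ST_TOK : Prop := ∀ (V s A : ℕ) (P : ℕ → Option (List ℕ)) (D' : List ℕ) (a b : ℕ),
  VOk V s A P D' a b →
    (∀ κ < V, ∀ Q, istep (V * nu A) (trk V s A P D' a b) (2 * A + κ * nu A, true :: Q) =
      (2 * A + κ * nu A, Q ++ List.replicate (1 + (V * nu A - 1) * s) true)) ∧
    (∀ κ, κ + 1 < V → ∀ τ < A, ∀ Q, (istep (V * nu A) (trk V s A P D' a b))^[nu A + 1]
        (2 * A + (κ + 1) * nu A, lt1 A (some τ) ++ Q) =
      (2 * A + κ * nu A, Q ++ List.replicate (1 + (V * nu A - 1) * s) true)) ∧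
    (∀ τ < A, ∀ p, P τ = some p → ∀ Q, (istep (V * nu A) (trk V s A P D' a b))^[nu A + 1]
        (2 * A, lt1 A (some τ) ++ Q) =
      (2 * A + (V - 1) * nu A, Q ++ letters A (Wact V s A p))) ∧
    (∀ τ < A, P τ = none → ∀ Q, (istep (V * nu A) (trk V s A P D' a b))^[nu A + 1]
        (2 * A, lt1 A (some τ) ++ Q) =
      (2 * A + (V - 1) * nu A, Q ++ false :: List.replicate (1 + (V * nu A - 1) * s) true))

/-- ODD: at odd phases every token gives only letters `c` -/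
def ST_ODD : Prop := ∀ (V s A : ℕ) (P : ℕ → Option (List ℕ)) (D' : List ℕ) (a b : ℕ),
  VOk V s A P D' a b → ∀ W : List (Option ℕ), TokOk A W → ∀ φ < V * nu A, φ % 2 = 1 →
    ∀ Q : List Bool, ∃ n, ∃ φ' < V * nu A, φ' % 2 = 1 ∧ ∃ R : List Bool, (∀ x ∈ R, x = false) ∧
      (istep (V * nu A) (trk V s A P D' a b))^[n] (φ, letters A W ++ Q) = (φ', Q ++ R)

/-- VSIM: one V-tag step -/
def ST_VSIM : Prop := ∀ (V s A : ℕ) (P : ℕ → Option (List ℕ)) (D' : List ℕ) (a b : ℕ),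
  VOk V s A P D' a b → ∀ κ < V, ∀ W : List (Option ℕ), W ≠ [] → TokOk A W →
    ¬ VHalt P (κ, W.reduceOption) →
    ∃ n, 1 ≤ n ∧ ∃ κ' < V, ∃ W' : List (Option ℕ), W' ≠ [] ∧ TokOk A W' ∧
      (istep (V * nu A) (trk V s A P D' a b))^[n] (2 * A + κ * nu A, letters A W) =
        (2 * A + κ' * nu A, letters A W') ∧
      (κ', W'.reduceOption) = vstep V P (κ, W.reduceOption)

/-- HLT -/
def ST_HLT : Prop := ∀ (V s A : ℕ) (P : ℕ → Option (List ℕ)) (D' : List ℕ) (a b : ℕ),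
  VOk V s A P D' a b → ∀ W : List (Option ℕ), TokOk A W → CHalt P (0, W.reduceOption) →
    IHalt (V * nu A) (trk V s A P D' a b) (2 * A, letters A W)

/-- C: the V-tag system and the item machine -/
def ST_C : Prop := ∀ (V s A : ℕ) (P : ℕ → Option (List ℕ)) (D' : List ℕ) (a b : ℕ),
  VOk V s A P D' a b →
    ((∃ N, CHalt P ((vstep V P)^[N] (0, D' ++ [a, b])) ∧
        ∀ i < N, ¬ VHalt P ((vstep V P)^[i] (0, D' ++ [a, b]))) →
      IHalt (V * nu A) (trk V s A P D' a b) (0, (trk V s A P D' a b 0).tail)) ∧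
    ((∀ N, ¬ VHalt P ((vstep V P)^[N] (0, D' ++ [a, b]))) →
      ¬ IHalt (V * nu A) (trk V s A P D' a b) (0, (trk V s A P D' a b 0).tail))

/-! ## (D) -/

/-- DPR: values of the productions and their lengths -/
def ST_DPR : Prop := ∀ (k Q0 q0 qh : ℕ) (tab : List (ℕ × Bool × Bool × ℕ)), 2 ≤ k → ∀ q,
  prod k Q0 q0 qh tab 0 = some (List.replicate ((k + 1) * k) 0) ∧
  prod k Q0 q0 qh tab (sh k q) = (if q = qh then none else some (blk k 2 q)) ∧
  prod k Q0 q0 qh tab (sb k q) = some (blk k 3 q) ∧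
  (∀ r < k,
    prod k Q0 q0 qh tab (sT k 0 q r) = some (List.replicate ((k + 1) * (k - r) - 1) 0 ++
      sh k (dlt k Q0 q0 tab q r).1 ::
        List.replicate ((k + 1) * (dlt k Q0 q0 tab q r).2.2.2) (sb k (dlt k Q0 q0 tab q r).1)) ∧
    prod k Q0 q0 qh tab (sT k 1 q r) = some (List.replicate
      ((k + 1) * (if (dlt k Q0 q0 tab q r).2.2.1 then k else 1)) (sb k (dlt k Q0 q0 tab q r).1)) ∧
    prod k Q0 q0 qh tab (sT k 2 q r) = some (blk k 0 (dlt k Q0 q0 tab q r).1 ++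
      cps (if (dlt k Q0 q0 tab q r).2.1 then r else 0) (blk k 1 (dlt k Q0 q0 tab q r).1)) ∧
    prod k Q0 q0 qh tab (sT k 3 q r) = some
      (cps (if (dlt k Q0 q0 tab q r).2.1 then k else 1) (blk k 1 (dlt k Q0 q0 tab q r).1))) ∧
  (∀ τ, τ < 1 + (2 + 4 * k) * (q + 1) → 1 + (2 + 4 * k) * q ≤ τ →
    τ = sh k q ∨ τ = sb k q ∨ ∃ ty < 4, ∃ r < k, τ = sT k ty q r)

/-- DOK -/
def ST_DOK : Prop := ∀ (k Q0 q0 qh : ℕ) (tab : List (ℕ × Bool × Bool × ℕ)),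
  AOk k Q0 q0 qh tab → ∀ n, VOk ((k + 1) * k) (k + 1) (nA k Q0 n) (prod k Q0 q0 qh tab)
    (D1 k Q0 n) 0 (sT k 0 (Q0 + 2 * n) 0)

/-- DDW -/
def ST_DDW : Prop := ∀ (k Q0 n : ℕ), 2 ≤ k →
  D1 k Q0 n ++ [0, sT k 0 (Q0 + 2 * n) 0] = conf k (Q0 + 2 * n, 0, 0)

/-- DSTEP: one step of the two-number machine -/
def ST_DSTEP : Prop := ∀ (k Q0 q0 qh : ℕ) (tab : List (ℕ × Bool × Bool × ℕ)), 2 ≤ k →
  ∀ c : ℕ × ℕ × ℕ, c.1 ≠ qh → ∃ N, 1 ≤ N ∧
    (vstep ((k + 1) * k) (prod k Q0 q0 qh tab))^[N] (0, conf k c) =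
      (0, conf k (astep k (dlt k Q0 q0 tab) c)) ∧
    ∀ i < N, ¬ VHalt (prod k Q0 q0 qh tab)
      ((vstep ((k + 1) * k) (prod k Q0 q0 qh tab))^[i] (0, conf k c))

/-- DHALT -/
def ST_DHALT : Prop := ∀ (k Q0 q0 qh : ℕ) (tab : List (ℕ × Bool × Bool × ℕ)), 2 ≤ k →
  ∀ c : ℕ × ℕ × ℕ, c.1 = qh → CHalt (prod k Q0 q0 qh tab) (0, conf k c)

/-- DPRE: the loading states -/
def ST_DPRE : Prop := ∀ (k Q0 q0 qh : ℕ) (tab : List (ℕ × Bool × Bool × ℕ)),
  AOk k Q0 q0 qh tab → ∀ n,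
    (astep k (dlt k Q0 q0 tab))^[2 * n + 1] (Q0 + 2 * n, 0, 0) = (q0, n, 0) ∧
    ∀ i < 2 * n + 1, ((astep k (dlt k Q0 q0 tab))^[i] (Q0 + 2 * n, 0, 0)).1 ≠ qh

/-- D -/
def ST_D : Prop := ∀ (k Q0 q0 qh : ℕ) (tab : List (ℕ × Bool × Bool × ℕ)),
  AOk k Q0 q0 qh tab → ∀ n,
    (AHalt k Q0 q0 qh tab (q0, n, 0) →
      ∃ N, CHalt (prod k Q0 q0 qh tab)
          ((vstep ((k + 1) * k) (prod k Q0 q0 qh tab))^[N] (0, conf k (Q0 + 2 * n, 0, 0))) ∧
        ∀ i < N, ¬ VHalt (prod k Q0 q0 qh tab)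
          ((vstep ((k + 1) * k) (prod k Q0 q0 qh tab))^[i] (0, conf k (Q0 + 2 * n, 0, 0)))) ∧
    (¬ AHalt k Q0 q0 qh tab (q0, n, 0) →
      ∀ N, ¬ VHalt (prod k Q0 q0 qh tab)
          ((vstep ((k + 1) * k) (prod k Q0 q0 qh tab))^[N] (0, conf k (Q0 + 2 * n, 0, 0))))

/-! ## (E) -/

/-- number with base `k` digits `l` (least significant first) -/
def codeL (k : ℕ) (l : List ℕ) : ℕ := l.foldr (fun a x => k * x + a) 0

/-- TRN: Mathlib's input lists are computable -/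
def ST_TRN : Prop := ∀ e : PartrecToTM2.Γ' → ℕ,
  Computable (fun n : ℕ => (PartrecToTM2.trList [n]).map e)

/-- UTM: a Turing machine with finite support, finite alphabet and undecidable halting problem -/
def ST_UTM : Prop :=
  ∃ (Γ Λ : Type) (_ : Inhabited Γ) (_ : Inhabited Λ) (M : TM0.Machine Γ Λ) (S : Finset Λ)
    (k : ℕ) (enc : Γ → ℕ) (inp : ℕ → List Γ),
    TM0.Supports M ↑S ∧ 2 ≤ k ∧ Function.Injective enc ∧ (∀ a, enc a < k) ∧ enc default = 0 ∧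
    Computable (fun n => codeL k ((inp n).map enc)) ∧
    ¬ ComputablePred (fun n => (TM0.eval M (inp n)).Dom)

/-- AMTM: two-number machines simulate Turing machines -/
def ST_AMTM : Prop := ∀ (Γ Λ : Type) [Inhabited Γ] [Inhabited Λ] (M : TM0.Machine Γ Λ)
  (S : Finset Λ) (k : ℕ) (enc : Γ → ℕ), TM0.Supports M ↑S → 2 ≤ k → Function.Injective enc →
    (∀ a, enc a < k) → enc default = 0 →
    ∃ (Q0 q0 qh : ℕ) (tab : List (ℕ × Bool × Bool × ℕ)), AOk k Q0 q0 qh tab ∧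
      ∀ l : List Γ, (AHalt k Q0 q0 qh tab (q0, codeL k (l.map enc), 0) ↔ (TM0.eval M l).Dom)

/-- AM -/
def ST_AM : Prop := ∃ (k Q0 q0 qh : ℕ) (tab : List (ℕ × Bool × Bool × ℕ)),
  AOk k Q0 q0 qh tab ∧ ¬ ComputablePred (fun n => AHalt k Q0 q0 qh tab (q0, n, 0))

/-! ## (F) -/

/-- CPR -/
def ST_CPR : Prop := ∀ (k Q0 q0 qh : ℕ) (tab : List (ℕ × Bool × Bool × ℕ)),
  Primrec (prod k Q0 q0 qh tab)

/-- CTR: the tracks are primitive recursive -/
def ST_CTR : Prop := ∀ (k Q0 q0 qh : ℕ) (tab : List (ℕ × Bool × Bool × ℕ)),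
  Primrec₂ (fun n φ => trN k Q0 q0 qh tab n φ)

/-- CUN: `U` is primitive recursive -/
def ST_CUN : Prop := ∀ (k Q0 q0 qh : ℕ) (tab : List (ℕ × Bool × Bool × ℕ)),
  Primrec (fun n => UN k Q0 q0 qh tab n)

/-- COMP: the reduction is computable -/
def ST_COMP : Prop := ∀ (k Q0 q0 qh : ℕ) (tab : List (ℕ × Bool × Bool × ℕ)),
  Computable (fun n => inst4 (mN k Q0 n) (UN k Q0 q0 qh tab n))

/-- LIFT: more pairs, and the binary alphabet -/
def ST_LIFT : Prop := ¬ ComputablePred (fun I : Inst 4 ℕ => Pos I) →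
  ∀ n, 4 ≤ n → ¬ ComputablePred (fun I : Inst n ℕ => Pos I) ∧
    ¬ ComputablePred (fun I : Inst n Bool => Pos I)

/-- FIN -/
def ST_FIN : Prop := ∀ n, 4 ≤ n → ¬ ComputablePred (fun I : Inst n ℕ => Pos I) ∧
    ¬ ComputablePred (fun I : Inst n Bool => Pos I)

end PCP4
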